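import Pool.Agent.Y320.BP.Band

/-!
# Powers of the weak Hilbertian ball and its truncations, and their function spaces
-/

set_option autoImplicit false

namespace Pool.Agent.Results.MP_ca7a0e_gt.PowersOfListed

open Pool.Agent.Y320.BP Cardinal

universe u

open Classical in
/-- The pairs `(a, b)` of the list: the full ball, the positive part, the half ball,
and the two families of truncations. -/
inductive Listed {κ : Type u} : (κ → ℝ) → (κ → ℝ) → Prop
  | ball : Listed (fun _ => -1) (fun _ => 1)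
  | pos : Listed (fun _ => 0) (fun _ => 1)
  | half (i₀ : κ) : Listed (fun i => if i = i₀ then 0 else -1) (fun _ => 1)
  | trunc (t : ℝ) (h0 : 0 < t) (h1 : t < 1) : Listed (fun _ => -t) (fun _ => t)
  | posTrunc (t : ℝ) (h0 : 0 < t) (h1 : t < 1) : Listed (fun _ => 0) (fun _ => t)

/-- The listed spaces are bands `B(κ, a, b)` with `a i < b i` for all `i` and
`∑ (a i)⁺ + (b i)⁻ < 1`. -/
theorem listed_band {κ : Type u} {a b : κ → ℝ} (h : Listed a b) : Band a b := by
  have h1 : (∀ i, a i < b i) ∧ (∀ i, a i ≤ 0) ∧ ∀ i, 0 ≤ b i := by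
    cases h with
    | ball => exact ⟨fun _ => by norm_num, fun _ => by norm_num, fun _ => by norm_num⟩
    | pos => exact ⟨fun _ => by norm_num, fun _ => by norm_num, fun _ => by norm_num⟩
    | half i₀ =>
      refine ⟨fun i => ?_, fun i => ?_, fun _ => by norm_num⟩
      · by_cases hi : i = i₀
        · simp [hi]
        · simp only [if_neg hi]; norm_num
      · by_cases hi : i = i₀
        · simp [hi]
        · simp only [if_neg hi]; norm_num
    | trunc t h0 h1 => exact ⟨fun _ => by linarith, fun _ => by linarith, fun _ => h0.le⟩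
    | posTrunc t h0 h1 => exact ⟨fun _ => h0, fun _ => le_rfl, fun _ => h0.le⟩
  have e : (fun i => max (a i) 0 + max (-b i) 0) = fun _ => 0 := by
    funext i
    rw [max_eq_right (h1.2.1 i), max_eq_right (by linarith [h1.2.2 i])]; ring
  exact ⟨h1.1, by rw [e]; exact summable_zero, by rw [e]; simp⟩

/-- `B a b = B(κ, a, b)`; `Band a b` says that `a i < b i` for all `i` and
`∑ (a i)⁺ + (b i)⁻ < 1`; `Emb X Y` says that the Banach space `X` is isomorphic to a subspace of
`Y`; `≃L[ℝ]` is a linear homeomorphism for the norm topologies.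

1. Any two listed spaces over the same uncountable set are homeomorphic, and listed spaces are
   bands.
2. Let `B(κ, a, b)` and `B(Λ, c, d)` be bands over uncountable sets. They are homeomorphic if and
   only if `|κ| = |Λ|`, and if and only if their spaces of continuous functions are isomorphic.
3. Let moreover `I`, `J` be countable, `I` nonempty, and let `I` be infinite or `|κ| ≥ ℵ_ω`. Then
   the powers `B(κ, a, b)^I` and `B(Λ, c, d)^J` are homeomorphic if and only if `|κ| = |Λ|` and
   `|I| = |J|`, if and only if `C(B(κ, a, b)^I)` and `C(B(Λ, c, d)^J)` are isomorphic; and the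
   former is isomorphic to a subspace of the latter if and only if `|κ| ≤ |Λ|` and `|I| ≤ |J|`. -/
theorem result :
    (∀ (κ : Type u) (a b a' b' : κ → ℝ), Uncountable κ → Listed a b → Listed a' b' →
      Nonempty (B a b ≃ₜ B a' b')) ∧
    (∀ (κ : Type u) (a b : κ → ℝ), Listed a b → Band a b) ∧
    (∀ (κ Λ : Type u) (a b : κ → ℝ) (c d : Λ → ℝ), Uncountable κ → Uncountable Λ →
      Band a b → Band c d →
      (Nonempty (B a b ≃ₜ B c d) ↔ #κ = #Λ) ∧
      (Nonempty (C(B a b, ℝ) ≃L[ℝ] C(B c d, ℝ)) ↔ #κ = #Λ) ∧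
      ∀ I J : Type, Nonempty I → Countable I → Countable J →
        (Infinite I ∨ ℵ_ Ordinal.omega0 ≤ #κ) →
        (Nonempty ((I → B a b) ≃ₜ (J → B c d)) ↔ #κ = #Λ ∧ #I = #J) ∧
        (Nonempty (C(I → B a b, ℝ) ≃L[ℝ] C(J → B c d, ℝ)) ↔ #κ = #Λ ∧ #I = #J) ∧
        (Emb C(I → B a b, ℝ) C(J → B c d, ℝ) ↔ #κ ≤ #Λ ∧ #I ≤ #J)) := by
  refine ⟨fun κ a b a' b' hκ h h' => (homeo_iff (listed_band h) (listed_band h')).mpr rfl,
    fun κ a b h => listed_band h, fun κ Λ a b c d hκ hΛ h h' =>
    ⟨homeo_iff h h', equiv_iff_one h h', fun I J hI hIc hJc hbig => ?_⟩⟩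
  obtain ⟨h1, h2, h3⟩ := band_powers h h' I J hI hIc hJc hbig
  exact ⟨h3, h2, h1⟩

end Pool.Agent.Results.MP_ca7a0e_gt.PowersOfListed
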